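import Pool.Agent.N464.HL.Ref

set_option autoImplicit false

/-!
Let `H` be a complete `r`-partite graph, `r ≥ 2` (vertex set `W`, the parts are the fibres of
`p`), `lam` the eigenvalue of its adjacency matrix with a nonzero nonnegative eigenvector `v`
(the spectral radius) and `D` the sum of the degrees of `H`. For every tree `T` with `n ≥ 2`
vertices `hom(T, H) ≥ D * lam ^ (n - 2)` and `D * hom(P_n, H) ≤ lam * |W| * hom(T, H)`.
-/

namespace Pool.Agent.Results.MP_66e4ee_co.SpectralLowerBound

open Finset Pool.W650.HL Pool.Agent.N464.HL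
open Pool.Agent.TH462.HL2 (RT msgF bridge_one path_eq msgF_L)

theorem result :
    ∀ r : ℕ, 2 ≤ r → ∀ (W : Type) [Fintype W] (p : W → Fin r), Function.Surjective p →
      ∀ (lam : ℝ) (v : W → ℝ), (∀ w, 0 ≤ v w) → (∃ w, v w ≠ 0) →
      (∀ w, ∑ w' ∈ univ.filter (fun w' => p w' ≠ p w), v w' = lam * v w) →
      ∀ (n : ℕ), 2 ≤ n → ∀ (T : SimpleGraph (Fin n)), T.IsTree →
        (∑ w : W, ((univ.filter (fun w' : W => p w' ≠ p w)).card : ℝ)) * lam ^ (n - 2)
            ≤ (Nat.card {f : Fin n → W // ∀ a b : Fin n, T.Adj a b → p (f a) ≠ p (f b)} : ℝ) ∧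
        (∑ w : W, ((univ.filter (fun w' : W => p w' ≠ p w)).card : ℝ))
            * (Nat.card {f : Fin n → W //
                ∀ a b : Fin n, (SimpleGraph.pathGraph n).Adj a b → p (f a) ≠ p (f b)} : ℝ)
          ≤ lam * (Fintype.card W : ℝ)
            * (Nat.card {f : Fin n → W // ∀ a b : Fin n, T.Adj a b → p (f a) ≠ p (f b)} : ℝ) := by
  intro r hr W _ p hp lam v hv hv0 heig n hn T hT
  classical
  obtain ⟨n, rfl⟩ : ∃ m, n = m + 1 := ⟨n - 1, by omega⟩
  -- part sizes
  set a : Fin r → ℝ := fun i => (Nat.card {w : W // p w = i} : ℝ) with ha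
  have hac : ∀ i, a i = ((univ.filter (fun w : W => p w = i)).card : ℝ) := by
    intro i
    simp only [ha]
    rw [Nat.card_eq_fintype_card, Fintype.card_subtype]
  have hfib : ∀ g : Fin r → ℝ, ∑ w : W, g (p w) = ∑ i, a i * g i := by
    intro g
    rw [← Finset.sum_fiberwise (s := univ) (g := p) (f := fun w => g (p w))]
    refine Finset.sum_congr rfl fun i _ => ?_
    have : ∀ w ∈ univ.filter (fun w : W => p w = i), g (p w) = g i := by
      intro w hw
      rw [(Finset.mem_filter.1 hw).2]
    rw [Finset.sum_congr rfl this, Finset.sum_const, nsmul_eq_mul, hac]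
  have hcard : (Fintype.card W : ℝ) = ∑ i, a i := by
    have := hfib (fun _ => 1)
    simpa using this
  have hapos : ∀ i, 0 < a i := by
    intro i
    obtain ⟨w, hw⟩ := hp i
    rw [hac]
    exact_mod_cast Finset.card_pos.2 ⟨w, by simp [hw]⟩
  -- the eigenvalue equation
  set V := ∑ w, v w with hV
  set s : Fin r → ℝ := fun i => ∑ w ∈ univ.filter (fun w : W => p w = i), v w with hs
  have hsn : ∀ i, 0 ≤ s i := fun i => Finset.sum_nonneg fun w _ => hv w
  have hsum : ∑ i, s i = V := by
    rw [hV, ← Finset.sum_fiberwise (s := univ) (g := p) (f := fun w => v w)]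
  have hVpos : 0 < V := by
    obtain ⟨w, hw⟩ := hv0
    exact Finset.sum_pos' (fun w _ => hv w) ⟨w, Finset.mem_univ w, lt_of_le_of_ne (hv w) (Ne.symm hw)⟩
  have heig2 : ∀ w, V - s (p w) = lam * v w := by
    intro w
    rw [← heig w]
    have := Finset.sum_filter_add_sum_filter_not (univ : Finset W) (fun w' => p w' = p w) v
    simp only [hs, hV]
    linarith
  have hlam0 : 0 ≤ lam := by
    obtain ⟨w, hw⟩ := hv0
    have hw' : 0 < v w := lt_of_le_of_ne (hv w) (Ne.symm hw)
    have h1 := heig2 w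
    have h2 : s (p w) ≤ V := by
      rw [← hsum]
      exact Finset.single_le_sum (fun i _ => hsn i) (Finset.mem_univ (p w))
    by_contra hc
    push Not at hc
    have := mul_neg_of_neg_of_pos hc hw'
    linarith
  have hlam : 0 < lam := by
    refine lt_of_le_of_ne hlam0 fun h0 => ?_
    have h1 : ∀ i, s i = V := by
      intro i
      obtain ⟨w, hw⟩ := hp i
      have := heig2 w
      rw [← h0, hw] at this
      linarith
    have h2 : ∑ i, s i = (r : ℝ) * V := by
      rw [Finset.sum_congr rfl fun i _ => h1 i]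
      simp
    have h3 : (2 : ℝ) ≤ r := by exact_mod_cast hr
    rw [hsum] at h2
    nlinarith
  have hclass : ∀ i, a i * (V - s i) = lam * s i := by
    intro i
    have h1 : ∑ w ∈ univ.filter (fun w : W => p w = i), (V - s i)
        = ∑ w ∈ univ.filter (fun w : W => p w = i), lam * v w := by
      refine Finset.sum_congr rfl fun w hw => ?_
      rw [← heig2 w, (Finset.mem_filter.1 hw).2]
    rw [Finset.sum_const, nsmul_eq_mul, ← hac, ← Finset.mul_sum] at h1
    exact h1
  have hdat : Dat a lam := by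
    refine ⟨hapos, hlam, ?_⟩
    have h1 : ∀ i, a i / (lam + a i) = s i / V := by
      intro i
      have h2 := hapos i
      have h3 := hclass i
      rw [div_eq_div_iff (by positivity) (by positivity)]
      linarith
    rw [Finset.sum_congr rfl fun i _ => h1 i, ← Finset.sum_div, hsum, div_self hVpos.ne']
  -- the sum of the degrees
  have hD : (∑ w : W, ((univ.filter (fun w' : W => p w' ≠ p w)).card : ℝ))
      = Zt a (RT.join RT.leaf RT.leaf) := by
    have h1 : ∀ w : W, ((univ.filter (fun w' : W => p w' ≠ p w)).card : ℝ)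
        = (∑ i, a i) - a (p w) := by
      intro w
      have h2 := Finset.card_filter_add_card_filter_not (s := (univ : Finset W))
        (fun w' => p w' = p w)
      rw [← hcard, hac, eq_sub_iff_add_eq']
      rw [Finset.card_univ] at h2
      exact_mod_cast h2
    rw [Finset.sum_congr rfl fun w _ => h1 w, hfib (fun i => (∑ i, a i) - a i), Zt_join]
    simp only [msgF, mul_one]
    rw [Finset.sum_mul, ← Finset.sum_sub_distrib]
    exact Finset.sum_congr rfl fun i _ => by ring
  -- the tree and the path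
  obtain ⟨R, hR, hZ⟩ := bridge_one a n T hT
  have h1 := hom' r W p (Fin (n + 1)) (SimpleGraph.pathGraph (n + 1))
  have h2 := hom' r W p (Fin (n + 1)) T
  have hT' : (Nat.card {f : Fin (n + 1) → W //
      ∀ a b : Fin (n + 1), T.Adj a b → p (f a) ≠ p (f b)} : ℝ) = Zt a R := by
    rw [h2]; exact hZ
  have hP' : (Nat.card {f : Fin (n + 1) → W //
      ∀ a b : Fin (n + 1), (SimpleGraph.pathGraph (n + 1)).Adj a b → p (f a) ≠ p (f b)} : ℝ)
      ≤ lam ^ n * ∑ i, a i := by
    rw [h1]
    have h3 : Zf a (SimpleGraph.pathGraph (n + 1)) (fun _ _ => 1)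
        = ∑ i, a i * U a n i := by
      rw [path_eq, msgF_L]
    exact (le_of_eq h3).trans (path_le hdat n)
  have hm := main hdat R (by omega)
  rw [hT', hD]
  rw [hR] at hm
  obtain ⟨m, rfl⟩ : ∃ m, n = m + 1 := ⟨n - 1, by omega⟩
  have hlow : Zt a (RT.join RT.leaf RT.leaf) * lam ^ (m + 1 + 1 - 2) ≤ Zt a R := by
    have e : lam ^ 2 * (Zt a (RT.join RT.leaf RT.leaf) * lam ^ (m + 1 + 1 - 2))
        = Zt a (RT.join RT.leaf RT.leaf) * lam ^ (m + 1 + 1) := by
      have : m + 1 + 1 - 2 = m := by omega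
      rw [this]; ring
    have h5 : (0 : ℝ) < lam ^ 2 := by positivity
    rw [← e] at hm
    exact le_of_mul_le_mul_left hm h5
  refine ⟨hlow, ?_⟩
  have hZ2 : 0 ≤ Zt a (RT.join RT.leaf RT.leaf) := (Zt_pos hdat _).le
  refine (mul_le_mul_of_nonneg_left hP' hZ2).trans ?_
  have hN : 0 ≤ ∑ i, a i := Finset.sum_nonneg fun i _ => (hapos i).le
  rw [hcard]
  have e : m + 1 + 1 - 2 = m := by omega
  rw [e] at hlow
  calc Zt a (RT.join RT.leaf RT.leaf) * (lam ^ (m + 1) * ∑ i, a i)
      = (lam * ∑ i, a i) * (Zt a (RT.join RT.leaf RT.leaf) * lam ^ m) := by ring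
    _ ≤ (lam * ∑ i, a i) * Zt a R := mul_le_mul_of_nonneg_left hlow (by positivity)

end Pool.Agent.Results.MP_66e4ee_co.SpectralLowerBound
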